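import Pool.Agent.MWV.Stmts

/-! Row UNQ of squad MWV: at most one full gap. -/

namespace Pool.Agent.MWV.H53

open Pool.Agent.MWV

lemma rr_kind {N : ℕ} {S : List ℕ → List ℕ → Prop} {Q : List ℕ} {i j : ℕ}
    (h : i ∈ Q ↔ j ∈ Q) (hr : rr N S Q i) : rr N S Q j :=
  ⟨fun hj => hr.1 (h.2 hj), fun hj => hr.2 (fun hi => hj (h.1 hi))⟩

lemma ll_kind {N : ℕ} {S : List ℕ → List ℕ → Prop} {Q : List ℕ} {i j : ℕ}
    (h : i ∈ Q ↔ j ∈ Q) (hr : ll N S Q i) : ll N S Q j :=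
  ⟨fun hj => hr.1 (h.2 hj), fun hj => hr.2 (fun hi => hj (h.1 hi))⟩

lemma aux {N : ℕ} {S : List ℕ → List ℕ → Prop} {P Q : List ℕ} {k i j : ℕ}
    (h0 : ¬ rr N S Q 0) (hk : ¬ ll N S Q k) (hik : i ≤ k)
    (hF : Full N S P Q k i) (hG : Full N S P Q k j) : ¬ i < j := by
  intro hij
  have r1 : rr N S Q i := hF.2.1 i le_rfl hik
  have r2 : rr N S Q k := hF.2.1 k hik le_rfl
  have l1 : ll N S Q i := hG.1 i hij
  by_cases a : (i ∈ Q ↔ 0 ∈ Q)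
  · exact h0 (rr_kind a r1)
  by_cases b : (i ∈ Q ↔ k ∈ Q)
  · exact hk (ll_kind b l1)
  have c : (k ∈ Q ↔ 0 ∈ Q) := by
    by_cases x : i ∈ Q <;> by_cases y : k ∈ Q <;> by_cases z : 0 ∈ Q <;> simp_all
  exact h0 (rr_kind c r2)

theorem unq : UnqStmt := by
  intro N S P Q k i j h0 hk _ hik _ hjk hF hG
  rcases Nat.lt_trichotomy i j with h | h | h
  · exact absurd h (aux h0 hk hik hF hG)
  · exact h
  · exact absurd h (aux h0 hk hjk hG hF)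

end Pool.Agent.MWV.H53
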